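import Pool.Agent.H32.N6.TargetsB

set_option autoImplicit false
open Polynomial NumberField IsDedekindDomain Matrix Pool.Agent.H32.QC Pool.Agent.H34.N6
  Pool.Agent.H32.N6

namespace Pool.Agent.H29.N6B

/-- multiplication by `X - t` -/
noncomputable def NN {F : Type} [Field F] (P : F[X]) (t : F) : Matrix (Fin 7) (Fin 7) F :=
  fun k j => (if (j : ℕ) < 6 then (if (k : ℕ) = (j : ℕ) + 1 then 1 else 0) else -P.coeff k) -
    (if k = j then t else 0)

theorem det_NN {F : Type} [Field F] (P : F[X]) (t : F) (hP : P.Monic) (h7 : P.natDegree = 7) :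
    (NN P t).det = -eval t P := by
  -- row operation
  let E : Matrix (Fin 7) (Fin 7) F := (1 : Matrix (Fin 7) (Fin 7) F).updateRow 0 (fun k => t ^ (k : ℕ))
  have hE : E.det = 1 := by
    have h1 : E.det = ((1 : Matrix (Fin 7) (Fin 7) F).updateCol 0 (fun k => t ^ (k : ℕ))).det := by
      rw [← Matrix.det_transpose]
      congr 1
      ext a b
      simp only [E, Matrix.transpose_apply, Matrix.updateRow_apply, Matrix.updateCol_apply,
        Matrix.one_apply]
      by_cases h : b = 0
      · simp [h]
      · simp [h, eq_comm]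
    rw [h1]
    have h2 := Matrix.cramer_apply (1 : Matrix (Fin 7) (Fin 7) F) (fun k => t ^ (k : ℕ)) 0
    rw [Matrix.cramer_one] at h2
    rw [← h2]
    simp
  have hev : eval t P = ∑ k ∈ Finset.range 8, P.coeff k * t ^ k := by
    rw [eval_eq_sum_range, h7]
  have hc7 : P.coeff 7 = 1 := by
    have := hP.coeff_natDegree
    rwa [h7] at this
  have hEN0 : ∀ j : Fin 7, (E * NN P t) 0 j = if j = 6 then -eval t P else 0 := by
    intro j
    have h1 : (E * NN P t) 0 j = ∑ k : Fin 7, t ^ (k : ℕ) * NN P t k j := by
      rw [Matrix.mul_apply]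
      apply Finset.sum_congr rfl
      intro k _
      simp [E]
    rw [h1, hev]
    fin_cases j <;> simp [NN, Fin.sum_univ_succ, Finset.sum_range_succ, hc7] <;> ring
  have hENs : ∀ (k : Fin 6) (j : Fin 7), (E * NN P t) k.succ j = NN P t k.succ j := by
    intro k j
    rw [Matrix.mul_apply]
    have h1 : ∀ l, E k.succ l = (1 : Matrix (Fin 7) (Fin 7) F) k.succ l := by
      intro l
      simp [E, Matrix.updateRow_apply]
    simp only [h1]
    rw [← Matrix.mul_apply, Matrix.one_mul]
  have h3 : (E * NN P t).det = -eval t P := by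
    rw [Matrix.det_succ_row_zero, Finset.sum_eq_single (6 : Fin 7)]
    · rw [hEN0 6, if_pos rfl]
      have h4 : ((E * NN P t).submatrix Fin.succ (Fin.succAbove (6 : Fin 7))).det = 1 := by
        have h5 : ((E * NN P t).submatrix Fin.succ (Fin.succAbove (6 : Fin 7))).BlockTriangular id := by
          intro a b hab
          rw [Matrix.submatrix_apply, hENs]
          have h6 : (b : ℕ) < (a : ℕ) := hab
          have hs : Fin.succAbove (6 : Fin 7) b = b.castSucc := by
            rw [Fin.succAbove_of_castSucc_lt]
            exact Fin.castSucc_lt_last b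
          rw [hs]
          unfold NN
          have e1 : ((b.castSucc : Fin 7) : ℕ) = b := rfl
          have e2 : ((a.succ : Fin 7) : ℕ) = a + 1 := rfl
          rw [e1, e2, if_pos b.2, if_neg (by omega), if_neg]
          · simp
          · intro h
            have := congrArg Fin.val h
            rw [e1, e2] at this
            omega
        rw [Matrix.det_of_isUpperTriangular h5]
        apply Finset.prod_eq_one
        intro a _
        rw [Matrix.submatrix_apply, hENs]
        have hs : Fin.succAbove (6 : Fin 7) a = a.castSucc := by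
          rw [Fin.succAbove_of_castSucc_lt]
          exact Fin.castSucc_lt_last a
        rw [hs]
        unfold NN
        have e1 : ((a.castSucc : Fin 7) : ℕ) = a := rfl
        have e2 : ((a.succ : Fin 7) : ℕ) = a + 1 := rfl
        rw [e1, e2, if_pos a.2, if_pos rfl, if_neg]
        · simp
        · intro h
          have := congrArg Fin.val h
          rw [e1, e2] at this
          omega
      rw [h4]
      norm_num
    · intro j _ hj
      rw [hEN0 j, if_neg hj]
      simp
    · intro h
      exact absurd (Finset.mem_univ _) h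
  rw [Matrix.det_mul, hE, one_mul] at h3
  exact h3

theorem ft_eq {F : Type} [Field F] (P D : F[X]) (t : F) (hP : P.Monic) (h7 : P.natDegree = 7) :
    ft P D t = gA P D 0 * NN P t := by
  have hXP : (X : F[X]) ^ 7 = P - ∑ k : Fin 7, C (P.coeff k) * X ^ (k : ℕ) := by
    have h1 := P.as_sum_range_C_mul_X_pow
    rw [h7, Finset.sum_range_succ] at h1
    have hc7 : P.coeff 7 = 1 := by
      have := hP.coeff_natDegree
      rwa [h7] at this
    rw [hc7, C_1, one_mul] at h1
    have h2 : ∑ k : Fin 7, C (P.coeff k) * (X : F[X]) ^ (k : ℕ) =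
        ∑ k ∈ Finset.range 7, C (P.coeff k) * X ^ k :=
      Fin.sum_univ_eq_sum_range (fun k => C (P.coeff k) * (X : F[X]) ^ k) 7
    rw [h2]
    nth_rewrite 1 [h1]
    ring
  ext i j
  rw [Matrix.mul_apply]
  have e0 : ∑ k, gA P D 0 i k * NN P t k j =
      ∑ k, gA P D 0 i k * (if (j : ℕ) < 6 then (if (k : ℕ) = (j : ℕ) + 1 then 1 else 0)
        else -P.coeff k) - t * gA P D 0 i j := by
    unfold NN
    simp only [mul_sub, Finset.sum_sub_distrib]
    congr 1
    rw [Finset.sum_eq_single j]
    · rw [if_pos rfl, mul_comm]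
    · intro k _ hk
      rw [if_neg hk, mul_zero]
    · intro h
      exact absurd (Finset.mem_univ _) h
  rw [e0]
  unfold ft
  rw [Matrix.sub_apply, Matrix.smul_apply, smul_eq_mul]
  congr 1
  by_cases hj : (j : ℕ) < 6
  · simp only [if_pos hj]
    rw [Finset.sum_eq_single (⟨(j : ℕ) + 1, by omega⟩ : Fin 7)]
    · simp only [if_true, mul_one]
      unfold gA
      congr 3
    · intro k _ hk
      rw [if_neg, mul_zero]
      intro h
      exact hk (Fin.ext h)
    · intro h
      exact absurd (Finset.mem_univ _) h
  · have hj6 : (j : ℕ) = 6 := by omega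
    simp only [if_neg hj]
    have h1 : gA P D 1 i j = lam P (D * X ^ (i : ℕ) * X ^ 7) := by
      unfold gA
      rw [hj6, mul_assoc, ← pow_add]
    have h2 : lam P (D * X ^ (i : ℕ) * X ^ 7) =
        lam P (-∑ k : Fin 7, C (P.coeff k) * (D * X ^ ((i : ℕ) + (k : ℕ) + 0))) := by
      apply lam_congr hP
      refine ⟨D * X ^ (i : ℕ), ?_⟩
      rw [hXP, mul_sub, Finset.mul_sum, sub_neg_eq_add, sub_add_eq_add_sub, add_sub_assoc,
        ← Finset.sum_sub_distrib, Finset.sum_eq_zero, add_zero, mul_comm]
      intro k _
      rw [add_zero, pow_add]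
      ring
    rw [h1, h2, lam_neg, lam_sum, ← Finset.sum_neg_distrib]
    apply Finset.sum_congr rfl
    intro k _
    rw [lam_C_mul]
    unfold gA
    ring

theorem pf_BDE : T_BDE := by
  intro F _ P D t hP h7
  rw [ft_eq P D t hP h7, Matrix.det_mul, det_NN P t hP h7, mul_comm]

end Pool.Agent.H29.N6B
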